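import Pool.Agent.H91.AV.Targets

/-! # BALH: hash functions are balanced (helper55) -/

namespace Pool.Agent.H55.AV

open Finset Pool.Agent.H91.AV
open Pool.Agent.H96.KX (psz fac jun PDz prs)

theorem pf_BALH : S_BALH := by
  intro p _ V _ s z
  have h1 : (univ.filter (fun u : ZMod p × V => hs p V s u = z)).card = Fintype.card V := by
    rw [← Finset.card_univ (α := V)]
    apply Finset.card_bij' (fun (u : ZMod p × V) _ => u.2) (fun v _ => (z - s v, v))
    · intro u _
      exact mem_univ _
    · intro v _
      rw [Finset.mem_filter]
      refine ⟨mem_univ _, ?_⟩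
      unfold hs
      ring
    · intro u hu
      rw [Finset.mem_filter] at hu
      have h2 : u.1 + s u.2 = z := hu.2
      ext
      · simp only
        rw [← h2]
        ring
      · rfl
    · intro v _
      rfl
  rw [h1, Fintype.card_prod, mul_comm]

end Pool.Agent.H55.AV
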